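import Pool.Agent.H84.SM.Targets

/-!
# NUL: all forms of large degree are combinations of the `N`-th powers of the derivatives
-/

set_option autoImplicit false

namespace Pool.Agent.H77.SM

open MvPolynomial Pool.Agent.H84.SM

/-- the component of degree `n + m` of a product with a form of degree `m` -/
theorem hcm {k σ : Type} [Field k] {g b : MvPolynomial σ k} {m : ℕ} (hg : g.IsHomogeneous m)
    (n : ℕ) : homogeneousComponent (n + m) (b * g) = homogeneousComponent n b * g := by
  classical
  conv_lhs => rw [← sum_homogeneousComponent b]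
  rw [Finset.sum_mul, map_sum]
  have h1 : ∀ i, homogeneousComponent (n + m) (homogeneousComponent i b * g) =
      if n = i then homogeneousComponent n b * g else 0 := by
    intro i
    have h2 : (homogeneousComponent i b * g).IsHomogeneous (i + m) :=
      (homogeneousComponent_isHomogeneous i b).mul hg
    rw [homogeneousComponent_of_mem h2]
    by_cases h : n = i
    · subst h
      rw [if_pos rfl, if_pos rfl]
    · rw [if_neg h, if_neg (by omega)]
  simp_rw [h1]
  rw [Finset.sum_ite_eq]
  split_ifs with h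
  · rfl
  · rw [homogeneousComponent_eq_zero n b, zero_mul]
    simpa using h

/-- forms of large degree are in the ideal if powers of the variables are -/
theorem mem_of_pow {k : Type} [Field k] (I : Ideal (MvPolynomial (Fin 3) k)) (r : Fin 3 → ℕ)
    (hr : ∀ i, (X i : MvPolynomial (Fin 3) k) ^ r i ∈ I) (e : ℕ) (φ : MvPolynomial (Fin 3) k)
    (he : r 0 + r 1 + r 2 ≤ e) (hφ : φ.IsHomogeneous e) : φ ∈ I := by
  rw [φ.as_sum]
  refine Ideal.sum_mem _ fun m hm => ?_
  have hdeg : ∑ i, m i = e := by
    have h1 := hφ (mem_support_iff.1 hm)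
    rw [← h1, Finsupp.weight_apply, Finsupp.sum_fintype _ _ (by simp)]
    simp
  obtain ⟨i, hi⟩ : ∃ i, r i ≤ m i := by
    by_contra h
    push Not at h
    rw [Fin.sum_univ_three] at hdeg
    have h0 := h 0
    have h1 := h 1
    have h2 := h 2
    omega
  have h3 : monomial m (coeff m φ) =
      monomial (m - Finsupp.single i (r i)) (coeff m φ) * X i ^ r i := by
    rw [X_pow_eq_monomial, monomial_mul, mul_one, tsub_add_cancel_of_le]
    exact Finsupp.single_le_iff.2 hi
  rw [h3]
  exact Ideal.mul_mem_left _ _ (hr i)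

theorem pf_NUL : T_NUL := by
  intro k _ _ _ G d hd hG N
  rcases Nat.eq_zero_or_pos N with hN | hN
  · subst hN
    refine ⟨0, fun e φ _ hφ => ⟨fun i => if i = 0 then φ else 0, fun i => ?_, ?_⟩⟩
    · rw [zero_mul, Nat.sub_zero]
      show (if i = 0 then φ else 0).IsHomogeneous e
      split_ifs
      · exact hφ
      · exact isHomogeneous_zero _ _ _
    · simp
  obtain ⟨g, hg⟩ : ∃ g : Fin 3 → MvPolynomial (Fin 3) k, g = fun i => pderiv i G ^ N := ⟨_, rfl⟩
  have hgh : ∀ i, (g i).IsHomogeneous (N * (d - 1)) := by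
    intro i
    rw [hg, mul_comm]
    exact (hG.1.pderiv (i := i)).pow N
  obtain ⟨I, hI⟩ : ∃ I, I = Ideal.span (Set.range g) := ⟨_, rfl⟩
  have hrad : ∀ i, (X i : MvPolynomial (Fin 3) k) ∈ I.radical := by
    intro i
    rw [← vanishingIdeal_zeroLocus_eq_radical (K := k), mem_vanishingIdeal_iff]
    intro x hx
    have h1 : x = 0 := by
      refine hG.2 x fun j => ?_
      have h2 := hx (g j) (by rw [hI]; exact Ideal.subset_span ⟨j, rfl⟩)
      rw [hg] at h2
      simp only [map_pow] at h2
      have h3 := pow_eq_zero_iff hN.ne' |>.1 h2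
      rwa [aeval_eq_eval] at h3
    rw [h1]
    simp
  have hr : ∀ i, ∃ r, (X i : MvPolynomial (Fin 3) k) ^ r ∈ I := fun i => hrad i
  choose r hr using hr
  refine ⟨r 0 + r 1 + r 2 + N * (d - 1), fun e φ he hφ => ?_⟩
  have hmem := mem_of_pow I r hr e φ (by omega) hφ
  rw [hI, Ideal.mem_span_range_iff_exists_fun] at hmem
  obtain ⟨b, hb⟩ := hmem
  refine ⟨fun i => homogeneousComponent (e - N * (d - 1)) (b i),
    fun i => homogeneousComponent_isHomogeneous _ _, ?_⟩
  have he' : e = (e - N * (d - 1)) + N * (d - 1) := by omega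
  have h1 : homogeneousComponent e φ = φ := homogeneousComponent_eq_self hφ
  rw [← h1, ← hb, map_sum]
  refine Finset.sum_congr rfl fun i _ => ?_
  have h2 := hcm (b := b i) (hgh i) (e - N * (d - 1))
  rw [← he'] at h2
  rw [h2, hg]

end Pool.Agent.H77.SM
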