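import Pool.Agent.H84.SM.Targets

/-!
# DIV: division by a factor
-/

set_option autoImplicit false

namespace Pool.Agent.H77.SM

open MvPolynomial Pool.Agent.H84.SM

section

variable {k : Type} [Field k]

theorem BH.mulx {e i e' i' : ℕ} {a b : A2 k} (ha : BH e i a) (hb : BH e' i' b) :
    BH (e + e') (i + i') (a * b) := ⟨ha.1.mul hb.1, ha.2.mul hb.2⟩

theorem BH.powx {e i : ℕ} {a : A2 k} (ha : BH e i a) (n : ℕ) : BH (n * e) (n * i) (a ^ n) := by
  have h1 := ha.1.pow n
  have h2 := ha.2.pow n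
  rw [smul_eq_mul] at h1 h2
  exact ⟨h1, h2⟩

theorem BH.uniq {e i e' i' : ℕ} {a : A2 k} (ha : BH e i a) (hb : BH e' i' a) (h0 : a ≠ 0) :
    e = e' ∧ i = i' := ⟨ha.1.inj_right h0 hb.1, ha.2.inj_right h0 hb.2⟩

theorem gA_BH {G : MvPolynomial (Fin 3) k} {d : ℕ} (hG : G.IsHomogeneous d) : BH d 0 (gA G) := by
  have key : ∀ w : Fin 3 ⊕ Fin 3 → ℕ, ∀ t : ℕ, (∀ i, w (Sum.inl i) = t) →
      IsWeightedHomogeneous w (gA G) (d * t) := by
    intro w t hw
    unfold gA
    rw [aeval_def, eval₂_eq']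
    refine IsWeightedHomogeneous.sum _ _ _ fun m hm => ?_
    have hdeg : ∑ i, m i = d := by
      have h1 := hG (mem_support_iff.1 hm)
      rw [← h1, Finsupp.weight_apply, Finsupp.sum_fintype _ _ (by simp)]
      simp
    have h1 : IsWeightedHomogeneous w (∏ i, (xa (k := k) i) ^ m i) (∑ i, m i • t) := by
      refine IsWeightedHomogeneous.prod _ _ _ fun i _ => ?_
      have h2 := (isWeightedHomogeneous_X k w (Sum.inl i)).pow (m i)
      rw [hw i] at h2
      exact h2
    have h3 : ∑ i, m i • t = d * t := by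
      rw [← hdeg, Finset.sum_mul]
      rfl
    rw [h3] at h1
    have h4 := (isWeightedHomogeneous_C (R := k) w (coeff m G)).mul h1
    rw [zero_add] at h4
    exact h4
  refine ⟨?_, ?_⟩
  · have h := key wx 1 fun i => rfl
    rwa [mul_one] at h
  · have h := key wy 0 fun i => rfl
    rwa [mul_zero] at h

theorem BHN.uniq {e n e' n' : ℕ} {N : R2 k} (h : BHN e n N) (h' : BHN e' n' N) (h0 : N ≠ 0) :
    e = e' ∧ n = n' := by
  obtain ⟨j, hj⟩ : ∃ j, N.coeff j ≠ 0 := by
    by_contra hc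
    push Not at hc
    exact h0 (Polynomial.ext fun j => by rw [hc j, Polynomial.coeff_zero])
  have h1 : 3 * j ≤ n := by
    by_contra hc
    exact hj ((h j).2 (by omega))
  have h2 : 3 * j ≤ n' := by
    by_contra hc
    exact hj ((h' j).2 (by omega))
  have h3 := BH.uniq ((h j).1 h1) ((h' j).1 h2) hj
  exact ⟨h3.1, by omega⟩

theorem BHN.gR_pow {G : MvPolynomial (Fin 3) k} {d : ℕ} (hG : G.IsHomogeneous d) (j : ℕ)
    {e n : ℕ} {N : R2 k} (h : BHN e n N) : BHN (e + d * j) n (gR G ^ j * N) := by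
  intro i
  have h1 : (gR G ^ j * N).coeff i = gA G ^ j * N.coeff i := by
    unfold gR
    rw [← Polynomial.C_pow, Polynomial.coeff_C_mul]
  rw [h1]
  refine ⟨fun hi => ?_, fun hi => ?_⟩
  · have h2 := BH.mulx (BH.powx (gA_BH hG) j) ((h i).1 hi)
    have e1 : j * d + e = e + d * j := by ring
    have e2 : j * 0 + (n - 3 * i) = n - 3 * i := by simp
    rw [e1, e2] at h2
    exact h2
  · rw [(h i).2 hi, mul_zero]

theorem Inv.gR_pow {G : MvPolynomial (Fin 3) k} (j : ℕ) {N : R2 k} (h : Inv N) :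
    Inv (gR G ^ j * N) := by
  intro i
  have h1 : (gR G ^ j * N).coeff i = gA G ^ j * N.coeff i := by
    unfold gR
    rw [← Polynomial.C_pow, Polynomial.coeff_C_mul]
  have h2 : dv (gA G) = 0 := by
    have key : ∀ Q : MvPolynomial (Fin 3) k, dv (aeval (xa (k := k)) Q) = 0 := by
      intro Q
      induction Q using MvPolynomial.induction_on with
      | C a =>
        rw [algHom_C]
        exact (dv (k := k)).map_algebraMap a
      | add p q hp hq => rw [map_add, map_add, hp, hq, add_zero]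
      | mul_X p i hp =>
        have h3 : dv (xa (k := k) i) = 0 := by
          unfold dv xa
          rw [mkDerivation_X]
          rfl
        rw [map_mul, aeval_X, Derivation.leibniz, hp, h3, smul_zero, smul_zero, add_zero]
    exact key G
  have h4 : dv (gA G ^ j) = 0 := by
    rw [Derivation.leibniz_pow, h2, smul_zero, smul_zero]
  rw [h1, Derivation.leibniz, h i, h4, smul_zero, smul_zero, add_zero]

end

theorem pf_DIV (hORK : T_ORK) (hGPR : T_GPR) (hPSG : T_PSG) (hINV : T_INV) (hHOM : T_HOM) :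
    T_DIV := by
  intro k _ _ _ G d hd hG hirr e m M' P hP hnd hdv n M τ N hN hS
  obtain ⟨hI, ⟨e₀, he₀, hB⟩, hΨ⟩ := hS
  obtain ⟨hpr, -, -, -, -⟩ := hGPR k G d hd hG hirr
  have hP0 : P ≠ 0 := by
    rintro rfl
    exact hnd (by rw [map_zero]; exact dvd_zero _)
  have hPN : P * N ≠ 0 := mul_ne_zero hP0 hN
  have hNP : N * P ≠ 0 := mul_ne_zero hN hP0
  have hIN : Inv N := (hINV k).2 N P hNP (by rw [mul_comm]; exact hI)
  obtain ⟨e1, n1, e2, n2, h1, h2, h3, h4⟩ := hHOM k e₀ n P N hPN hB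
  obtain ⟨h5, h6⟩ := BHN.uniq h3 hP hP0
  subst h5 h6
  have hmn : n1 ≤ n := by omega
  have hn2 : n - n1 = n2 := by omega
  refine ⟨hmn, Inv.gR_pow M' hIN, ⟨e2 + d * M', ?_, ?_⟩, fun l => ?_⟩
  · have h7 : (e₀ : ℤ) = e1 + e2 := by rw [← h1]; push_cast; ring
    have h8 : (n : ℤ) = n1 + n2 := by rw [← h2]; push_cast; ring
    rw [hn2]
    push_cast
    rw [h7, h8] at he₀
    linarith
  · rw [hn2]
    exact BHN.gR_pow hG.1 M' h4
  · have h7 := hORK k G d hd hG hirr e1 n1 M' P hP 0 l hdv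
    have h8 : ¬ gp G ^ (M' + 1) ∣ Psi G d l P := fun h =>
      hnd (hORK k G d hd hG hirr e1 n1 (M' + 1) P hP l 0 h)
    obtain ⟨u, hu⟩ := h7
    have hu' : ¬ gp G ∣ u := by
      rintro ⟨v, hv⟩
      exact h8 ⟨v, by rw [hu, hv, pow_succ]; ring⟩
    have h9 : Psi G d l (gR G ^ M' * N) = gp G ^ M' * Psi G d l N := by
      rw [map_mul, map_pow, (hPSG k G d l).1]
    rw [h9]
    refine hpr.pow_dvd_of_dvd_mul_left M hu' ?_
    have h10 := hΨ l
    rw [map_mul, hu] at h10
    have h11 : u * (gp G ^ M' * Psi G d l N) = gp G ^ M' * u * Psi G d l N := by ring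
    rw [h11]
    exact h10

end Pool.Agent.H77.SM
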