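import Pool.Agent.H84.SM.Targets2
import Pool.Agent.H6.SM.CHJ

/-!
# RAM: solutions near `φ` have bounded ramification and bounded order
-/

set_option autoImplicit false

namespace Pool.Agent.H77.SM

open MvPolynomial Pool.Agent.H84.SM
open Pool.Agent.H92.OD (HS cf sg uu Lat geO IsO DF DD cf_add cf_zero cf_sub cf_sg cf_DF hs_ext
  geO_zero algebraMap_HS sg_mul_sg)

section

variable {k : Type} [Field k] [CharZero k]

/-- a bound for the denominators and the size of the rational roots -/
theorem roots_bd (χ : Polynomial k) (h0 : χ ≠ 0) (a : ℕ)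
    (ha : a = 0 → χ = Polynomial.X ^ 2 - Polynomial.X) :
    ∃ N : ℕ, 1 ≤ N ∧ (a = 0 → N = 1) ∧
      ∀ r : ℚ, χ.eval (r : k) = 0 → (∃ m : ℤ, r * N = m) ∧ r ≤ N := by
  by_cases h : a = 0
  · refine ⟨1, le_rfl, fun _ => rfl, fun r hr => ?_⟩
    rw [ha h] at hr
    have h1 : (r : k) * (r - 1) = 0 := by
      rw [← hr]
      simp
      ring
    rcases mul_eq_zero.1 h1 with h2 | h2
    · have h3 : r = 0 := by exact_mod_cast h2
      subst h3
      exact ⟨⟨0, by norm_num⟩, by norm_num⟩
    · have h3 : r = 1 := by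
        have h4 : (r : k) = ((1 : ℚ) : k) := by
          rw [Rat.cast_one]
          exact sub_eq_zero.1 h2
        exact Rat.cast_injective h4
      subst h3
      exact ⟨⟨1, by norm_num⟩, by norm_num⟩
  · have hfin : {r : ℚ | χ.eval (r : k) = 0}.Finite := by
      refine Set.Finite.preimage (f := fun r : ℚ => (r : k))
        (fun a _ b _ h => Rat.cast_injective h) (s := {x : k | χ.eval x = 0}) ?_
      exact Polynomial.finite_setOfPred_isRoot h0
    obtain ⟨F, hF⟩ : ∃ F : Finset ℚ, ∀ r, r ∈ F ↔ χ.eval (r : k) = 0 :=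
      ⟨hfin.toFinset, fun r => by rw [Set.Finite.mem_toFinset]; rfl⟩
    obtain ⟨N, hN⟩ : ∃ N : ℕ, N = ∏ r ∈ F, (r.den * (r.num.natAbs + 1)) := ⟨_, rfl⟩
    have hpos : 0 < N := by
      rw [hN]
      exact Finset.prod_pos fun r _ => Nat.mul_pos r.den_pos (Nat.succ_pos _)
    refine ⟨N, hpos, fun h' => absurd h' h, fun r hr => ?_⟩
    have hd : r.den * (r.num.natAbs + 1) ∣ N := by
      rw [hN]
      exact Finset.dvd_prod_of_mem (fun r : ℚ => r.den * (r.num.natAbs + 1)) ((hF r).2 hr)
    constructor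
    · obtain ⟨c, hc⟩ := (Dvd.intro _ rfl : r.den ∣ r.den * (r.num.natAbs + 1)).trans hd
      refine ⟨r.num * c, ?_⟩
      rw [hc]
      push_cast
      rw [← mul_assoc, Rat.mul_den_eq_num]
    · have h1 : r.den * (r.num.natAbs + 1) ≤ N := Nat.le_of_dvd hpos hd
      have h2 : r ≤ |r| := le_abs_self r
      have h3 : |r| ≤ r.num.natAbs := by
        have h4 : r * r.den = r.num := Rat.mul_den_eq_num r
        have h5 : |r| * r.den = r.num.natAbs := by
          have h6 := congrArg abs h4
          rw [abs_mul, Nat.abs_cast] at h6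
          rw [h6, Nat.cast_natAbs, Int.cast_abs]
        have h6 : (1 : ℚ) ≤ r.den := by exact_mod_cast r.den_pos
        rw [← h5]
        nlinarith [abs_nonneg r]
      have h7 : (r.num.natAbs : ℚ) ≤ N := by
        have h8 : r.num.natAbs ≤ N := by
          refine le_trans ?_ h1
          have h9 : 1 * (r.num.natAbs + 1) ≤ r.den * (r.num.natAbs + 1) :=
            Nat.mul_le_mul_right _ r.den_pos
          omega
        exact_mod_cast h8
      exact h2.trans (h3.trans h7)

end

theorem pf_RAM (hIND : T_IND) : T_RAM := by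
  intro k _ _ _ A b φ a hB
  obtain ⟨χ, hχ0, hχa, hχ⟩ := hIND k A b φ a hB
  obtain ⟨N, hN1, hNa, hN⟩ := roots_bd χ hχ0 a hχa
  refine ⟨N, hN1, hNa, fun U hU _ hS => ⟨?_, fun μ hμ => ?_⟩⟩
  · by_contra hL
    have hL' : ∃ r : ℚ, cf U r ≠ 0 ∧ ¬∃ m : ℤ, r * N = m := by
      by_contra h
      push Not at h
      apply hL
      intro r hr
      obtain ⟨m, hm⟩ := h r hr
      exact ⟨m, hm⟩
    obtain ⟨T, hT⟩ : ∃ T : Set ℚ, T = {r | cf U r ≠ 0 ∧ ¬∃ m : ℤ, r * N = m} := ⟨_, rfl⟩
    have hWF : T.IsWF := by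
      refine (HahnSeries.isPWO_support (U : HahnSeries ℚ k)).isWF.mono ?_
      intro r hr
      rw [hT] at hr
      exact hr.1
    have hne : T.Nonempty := by
      obtain ⟨r, hr⟩ := hL'
      exact ⟨r, by rw [hT]; exact hr⟩
    obtain ⟨s, hs⟩ : ∃ s, s = hWF.min hne := ⟨_, rfl⟩
    have hsT : s ∈ T := by rw [hs]; exact hWF.min_mem hne
    have hmin : ∀ r < s, cf U r ≠ 0 → ∃ m : ℤ, r * N = m := by
      intro r hr hc
      by_contra h
      refine hWF.not_lt_min hne (a := r) ?_ (by rw [← hs]; exact hr)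
      rw [hT]
      exact ⟨hc, h⟩
    rw [hT] at hsT
    obtain ⟨hs0, hsN⟩ := hsT
    obtain ⟨σ, c, h1, h2, h3, h4⟩ := Pool.Agent.H6.SM.pf_CHJQ k N s hN1 hsN
    have hφ : σ φ = φ := by
      refine hs_ext fun r => ?_
      rw [h1]
      by_cases h : cf φ r = 0
      · rw [h, mul_zero]
      · obtain ⟨m, hm⟩ := hB.lat r h
        rw [h3 r ⟨m * N, ?_⟩, one_mul]
        rw [Nat.cast_one, mul_one] at hm
        rw [hm]
        push_cast
        ring
    have hσsg : ∀ z : ℤ, σ (sg (z : ℚ) (1 : k)) = sg (z : ℚ) 1 := by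
      intro z
      refine hs_ext fun r => ?_
      rw [h1, cf_sg]
      split_ifs with h
      · rw [h, h3 (z : ℚ) ⟨z * N, by push_cast; ring⟩, one_mul]
      · rw [mul_zero]
    have hσuu : σ (uu k) = uu k := by
      have h := hσsg 1
      rw [Int.cast_one] at h
      exact h
    have hσC : ∀ t : k, σ (algebraMap k (HS k) t) = algebraMap k (HS k) t := by
      intro t
      rw [algebraMap_HS]
      refine hs_ext fun r => ?_
      rw [h1, cf_sg]
      split_ifs with h
      · rw [h, h3 0 ⟨0, by simp⟩, one_mul]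
      · rw [mul_zero]
    have hσDF : ∀ y, σ (DF y) = DF (σ y) := by
      intro y
      refine hs_ext fun r => ?_
      rw [h1, cf_DF, cf_DF, h1, mul_smul_comm]
    have hσ1 : ∀ y, σ (y1 y) = y1 (σ y) := by
      intro y
      unfold y1
      have h := hσsg (-1)
      push_cast at h
      rw [map_mul, h, hσDF]
    have hσ2 : ∀ y, σ (y2 y) = y2 (σ y) := by
      intro y
      unfold y2
      have h := hσsg (-2)
      push_cast at h
      rw [map_mul, h, map_sub, hσDF, hσDF]
    obtain ⟨σ', hσ'⟩ : ∃ σ' : HS k →ₐ[k] HS k, ∀ y, σ' y = σ y :=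
      ⟨{ σ with commutes' := hσC }, fun y => rfl⟩
    have hσa : ∀ (n : ℕ) (v : Fin n → HS k) (P : MvPolynomial (Fin n) k),
        σ (aeval v P) = aeval (fun i => σ (v i)) P := by
      intro n v P
      rw [← hσ', ← AlgHom.comp_apply]
      congr 1
      apply MvPolynomial.algHom_ext
      intro i
      rw [AlgHom.comp_apply, aeval_X, aeval_X, hσ']
    have hSV : Sol A b (φ + σ U) := by
      have h := congrArg σ hS
      rw [map_add, map_mul, map_zero, hσa, hσa, hσ2, map_add, hφ] at h
      unfold Sol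
      have e1 : (fun i => σ (![uu k, φ + U] i)) = ![uu k, φ + σ U] := by
        funext i
        fin_cases i
        · exact hσuu
        · show σ (φ + U) = φ + σ U
          rw [map_add, hφ]
      have e2 : (fun i => σ (![uu k, φ + U, y1 (φ + U)] i)) =
          ![uu k, φ + σ U, y1 (φ + σ U)] := by
        funext i
        fin_cases i
        · exact hσuu
        · show σ (φ + U) = φ + σ U
          rw [map_add, hφ]
        · show σ (y1 (φ + U)) = y1 (φ + σ U)
          rw [hσ1, map_add, hφ]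
      rw [e1, e2] at h
      exact h
    have hge : ∀ r, geO r U → geO r (σ U) := by
      intro r hr t ht
      rw [h1, hr t ht, mul_zero]
    have hNV : Near a (σ U) := by
      obtain ⟨g1, r, g2, g3⟩ := hU
      exact ⟨hge 1 g1, r, g2, hge r g3⟩
    have hO : IsO (σ U - U) s := by
      refine ⟨?_, fun t ht => ?_⟩
      · rw [cf_sub, h1]
        intro h
        have h5 : (c s - 1) * cf U s = 0 := by rw [← h]; ring
        rcases mul_eq_zero.1 h5 with h6 | h6
        · exact h4 (sub_eq_zero.1 h6)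
        · exact hs0 h6
      · rw [cf_sub, h1]
        by_cases h : cf U t = 0
        · rw [h, mul_zero, sub_zero]
        · rw [h3 t (hmin t ht h), one_mul, sub_self]
    exact hsN (hN s (hχ U (σ U) hU hNV hS hSV s hO)).1
  · have h0 : Near a (0 : HS k) := ⟨geO_zero 1, (a : ℚ) + 1, by linarith, geO_zero _⟩
    have hS0 : Sol A b (φ + 0) := by
      rw [add_zero]
      exact hB.sol
    refine (hN μ (hχ 0 U h0 hU hS0 hS μ ?_)).2
    rw [sub_zero]
    exact hμ

end Pool.Agent.H77.SM
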