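import Pool.Agent.H84.SM.Targets

/-!
# PSJ: the substitutions are injective on invariant elements
-/

set_option autoImplicit false

namespace Pool.Agent.H77.SM

open MvPolynomial Pool.Agent.H84.SM

section

variable {k L : Type} [Field k] [Field L] [Algebra k L]

theorem cr_cr (a b c : Fin 3 → L) (i : Fin 3) :
    cr a (cr b c) i = b i * dp a c - c i * dp a b := by
  fin_cases i <;> simp [cr, dp, Fin.sum_univ_three] <;> ring

theorem dp_cr_self (a b : Fin 3 → L) : dp a (cr a b) = 0 := by
  simp [cr, dp, Fin.sum_univ_three]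
  ring

theorem euler (G : MvPolynomial (Fin 3) k) (d : ℕ) (hG : G.IsHomogeneous d) (x : Fin 3 → L) :
    dp (gr G x) x = (d : L) * aeval x G := by
  have h := congrArg (aeval x) hG.sum_X_mul_pderiv
  rw [map_sum, map_nsmul, nsmul_eq_mul] at h
  rw [← h]
  unfold dp gr
  refine Finset.sum_congr rfl fun i _ => ?_
  rw [map_mul, aeval_X, mul_comm]

/-- invariance under `y ↦ y + η x` -/
theorem inv_shift [CharZero L] (x y : Fin 3 → L) (η : L) (c : A2 k) (hc : dv c = 0) :
    aeval (Sum.elim x fun i => y i + η * x i) c = aeval (Sum.elim x y) c := by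
  obtain ⟨Φ, hΦ⟩ : ∃ Φ : A2 k →ₐ[k] Polynomial L, Φ = aeval (Sum.elim (fun i =>
      Polynomial.C (x i)) fun i => Polynomial.C (y i) + Polynomial.X * Polynomial.C (x i)) :=
    ⟨_, rfl⟩
  have hder : ∀ p : A2 k, Polynomial.derivative (Φ p) = Φ (dv p) := by
    intro p
    induction p using MvPolynomial.induction_on with
    | C a =>
      have h1 : dv (C a : A2 k) = 0 := (dv (k := k)).map_algebraMap a
      rw [h1, map_zero, hΦ]
      rw [algHom_C]
      exact Polynomial.derivative_C
    | add p q hp hq =>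
      rw [map_add, Polynomial.derivative_add, hp, hq, map_add, map_add]
    | mul_X p i hp =>
      have h2 : Polynomial.derivative (Φ (X i)) = Φ (dv (X i)) := by
        rcases i with i | i
        · have h1 : dv (X (Sum.inl i) : A2 k) = 0 := by
            unfold dv
            rw [mkDerivation_X]
            rfl
          rw [h1, map_zero, hΦ, aeval_X, Sum.elim_inl, Polynomial.derivative_C]
        · have h1 : dv (X (Sum.inr i) : A2 k) = X (Sum.inl i) := by
            unfold dv
            rw [mkDerivation_X]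
            rfl
          rw [h1, hΦ, aeval_X, aeval_X, Sum.elim_inr, Sum.elim_inl]
          simp
      rw [map_mul, Polynomial.derivative_mul, hp, h2, Derivation.leibniz, map_add, smul_eq_mul,
        smul_eq_mul, map_mul, map_mul]
      ring
  have h0 : Polynomial.derivative (Φ c) = 0 := by rw [hder, hc, map_zero]
  have hconst := Polynomial.eq_C_of_natDegree_eq_zero
    (Polynomial.derivative_eq_zero.1 h0)
  have hev : ∀ η : L, (Φ c).eval η = aeval (Sum.elim x fun i => y i + η * x i) c := by
    intro η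
    have h1 : ((Polynomial.aeval η).restrictScalars k).comp Φ =
        aeval (Sum.elim x fun i => y i + η * x i) := by
      apply MvPolynomial.algHom_ext
      intro i
      rw [AlgHom.comp_apply, hΦ, aeval_X, aeval_X]
      rcases i with i | i
      · simp
      · simp
        rw [mul_comm]
    rw [← h1, AlgHom.comp_apply]
    exact (Polynomial.coe_aeval_eq_eval η ▸ rfl)
  have h1 := hev η
  have h2 := hev 0
  rw [hconst, Polynomial.eval_C] at h1 h2
  rw [← h1, h2]
  simp

theorem ev_shift [CharZero L] (x y : Fin 3 → L) (w η : L) (N : R2 k) (hN : Inv N) :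
    ev x (fun i => y i + η * x i) w N = ev x y w N := by
  unfold ev
  rw [Polynomial.coe_eval₂RingHom, Polynomial.coe_eval₂RingHom, Polynomial.eval₂_eq_sum,
    Polynomial.eval₂_eq_sum]
  refine Finset.sum_congr rfl fun j _ => ?_
  have h := inv_shift x y η (N.coeff j) (hN j)
  exact congrArg (· * w ^ j) h

end

theorem pf_PSJ (hIRR : T_IRR) (hGPR : T_GPR) (hVAL : T_VAL) : T_PSJ := by
  intro k _ _ _ G d hd hG l N hN h0
  obtain ⟨-, -, -, -, hder⟩ := hGPR k G d hd hG (hIRR k G d (by omega) hG)
  obtain ⟨ι, hι⟩ : ∃ ι : R2 k →ₐ[k] FractionRing (R2 k), ι = IsScalarTower.toAlgHom k _ _ :=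
    ⟨_, rfl⟩
  have hinj : Function.Injective ι := by
    rw [hι]
    exact IsFractionRing.injective (R2 k) (FractionRing (R2 k))
  have hchar : CharZero (FractionRing (R2 k)) :=
    charZero_of_injective_algebraMap (algebraMap k (FractionRing (R2 k))).injective
  obtain ⟨x, hx⟩ : ∃ x : Fin 3 → FractionRing (R2 k), x = fun i =>
    ι (Polynomial.C (X (Sum.inl i))) := ⟨_, rfl⟩
  obtain ⟨y, hy⟩ : ∃ y : Fin 3 → FractionRing (R2 k), y = fun i =>
    ι (Polynomial.C (X (Sum.inr i))) := ⟨_, rfl⟩
  obtain ⟨w, hw⟩ : ∃ w : FractionRing (R2 k), w = ι Polynomial.X := ⟨_, rfl⟩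
  have hev : ∀ P : R2 k, ev x y w P = ι P := by
    have h1 : ev x y w = (ι : R2 k →+* FractionRing (R2 k)) := by
      apply Polynomial.ringHom_ext
      · intro a
        unfold ev
        rw [Polynomial.coe_eval₂RingHom, Polynomial.eval₂_C]
        have h2 : (aeval (Sum.elim x y) : A2 k →ₐ[k] FractionRing (R2 k)) =
            ι.comp (Polynomial.CAlgHom : A2 k →ₐ[k] R2 k) := by
          apply MvPolynomial.algHom_ext
          intro i
          rw [aeval_X, AlgHom.comp_apply]
          rcases i with i | i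
          · rw [Sum.elim_inl, hx]
            rfl
          · rw [Sum.elim_inr, hy]
            rfl
        exact DFunLike.congr_fun h2 a
      · unfold ev
        rw [Polynomial.coe_eval₂RingHom, Polynomial.eval₂_X, hw]
        rfl
    intro P
    rw [h1]
    rfl
  have hxP : ∀ P : MvPolynomial (Fin 3) k, P ≠ 0 → aeval x P ≠ 0 := by
    intro P hP h
    have h1 : (aeval x : MvPolynomial (Fin 3) k →ₐ[k] FractionRing (R2 k)) =
        (ι.comp (Polynomial.CAlgHom : A2 k →ₐ[k] R2 k)).comp (rename Sum.inl) := by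
      apply MvPolynomial.algHom_ext
      intro i
      rw [aeval_X, AlgHom.comp_apply, rename_X, hx]
      rfl
    rw [h1, AlgHom.comp_apply, AlgHom.comp_apply] at h
    have h2 := hinj (h.trans (map_zero ι).symm)
    have h3 : (rename Sum.inl P : A2 k) = 0 := Polynomial.C_injective (h2.trans (map_zero _).symm)
    exact hP (rename_injective _ Sum.inl_injective (h3.trans (map_zero _).symm))
  have hg : gr G x l ≠ 0 := hxP _ (hder l).1
  have hG0 : G ≠ 0 := by
    intro h
    apply (hder l).1
    rw [h, map_zero]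
  obtain ⟨D, hD⟩ : ∃ D, D = (d : FractionRing (R2 k)) * aeval x G := ⟨_, rfl⟩
  have hD0 : D ≠ 0 := by
    rw [hD]
    exact mul_ne_zero (Nat.cast_ne_zero.2 (by omega)) (hxP G hG0)
  have heul : dp (gr G x) x = D := by rw [hD]; exact euler G d hG.1 x
  obtain ⟨η, hη⟩ : ∃ η, η = - (dp (gr G x) y / D) := ⟨_, rfl⟩
  obtain ⟨q, hq⟩ : ∃ q : Fin 3 → FractionRing (R2 k), q = fun i => y i + η * x i := ⟨_, rfl⟩
  have hgq : dp (gr G x) q = 0 := by
    have h1 : dp (gr G x) q = dp (gr G x) y + η * dp (gr G x) x := by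
      rw [hq]
      unfold dp
      rw [Finset.mul_sum, ← Finset.sum_add_distrib]
      exact Finset.sum_congr rfl fun i _ => by ring
    rw [h1, heul, hη]
    field_simp
    ring
  obtain ⟨s, hs⟩ : ∃ s : Fin 3 → FractionRing (R2 k), s = fun i =>
    (w * gr G x i + hs G x q * cr x q i) / D := ⟨_, rfl⟩
  have hJP : JP G x q s := by
    refine ⟨hgq, fun i => ?_⟩
    have h1 : cr (gr G x) s i = Pool.Agent.H84.SM.hs G x q / D * cr (gr G x) (cr x q) i := by
      rw [hs]
      unfold cr
      field_simp
      ring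
    rw [h1, cr_cr, hgq, heul]
    field_simp
    ring
  have hdp : dp x s = w := by
    have h1 : dp x s = (w * dp (gr G x) x + Pool.Agent.H84.SM.hs G x q * dp x (cr x q)) / D := by
      rw [hs]
      unfold dp
      rw [Finset.mul_sum, Finset.mul_sum, ← Finset.sum_add_distrib, Finset.sum_div]
      exact Finset.sum_congr rfl fun i _ => by ring
    rw [h1, heul, dp_cr_self]
    field_simp
    ring
  have hval := (hVAL k G d hG.1 (FractionRing (R2 k)) x q s l (gr G x l)⁻¹ hJP
    (inv_mul_cancel₀ hg) N).1
  rw [h0, map_zero, hdp, hq, ev_shift x y w η N hN, hev] at hval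
  exact hinj (hval.symm.trans (map_zero ι).symm)

end Pool.Agent.H77.SM
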